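import Mathlib
import Pool.Agent.Lib.MP_16ef92_ag.EL.Top3

set_option autoImplicit false

namespace Pool.Agent.Results.MP_16ef92_ag.DescentAll

open Polynomial AlgebraicGeometry Pool.Agent.Lib.MP_16ef92_ag

/-- Let `F` be finite of odd order, let `A`, `B`, `A - B` have the same positive degree, of the
parity of the degree of `D`, with `N = A B (A - B) D` squarefree, and let `X` be the affine surface
`y^2 = x (x - D A) (x - D B)`, `N ≠ 0`.  If every 2-Selmer pair of weight divisible by 4 comes from
a 2-torsion point and the 2-Selmer pairs form at most two classes modulo the 2-torsion points, then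
`X` is a smooth surface and, for every prime `l` different from the characteristic, the kernel of
`(Frob - 1)^2` on the etale cohomology group `H^2(X̄, ℚ_l(1))` lies in the span of one vector fixed
by Frobenius. -/
theorem result (F : Type) [Field F] [Fintype F] (hq : Odd (Fintype.card F)) (A B D : F[X])
    (hsq : Squarefree (A * B * (A - B) * D)) (hA : 0 < A.natDegree)
    (hB : B.natDegree = A.natDegree) (hC : (A - B).natDegree = A.natDegree)
    (hD : Even (A.natDegree + D.natDegree))
    (hSel : ∀ d₁ d₂ : F[X], IsSel A B D d₁ d₂ → 4 ∣ wt D d₁ d₂ → IsTorsImage A B D d₁ d₂)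
    (hTwo : ∀ d₁ d₂ e₁ e₂ : F[X], IsSel A B D d₁ d₂ → IsSel A B D e₁ e₂ →
      IsTorsImage A B D d₁ d₂ ∨ IsTorsImage A B D e₁ e₂ ∨
        IsTorsImage A B D (d₁ * e₁) (d₂ * e₂)) :
    SmoothOfRelativeDimension 2 (Spec.map (CommRingCat.ofHom (algebraMap F (ET.surf A B D)))) ∧
      ∀ (l : ℕ) [Fact l.Prime], (l : F) ≠ 0 → EL.SimpleOn l (EL.frob F (ET.surf A B D)) :=
  EL.all_of_sel hq hsq hA hB hC hD hSel hTwo

end Pool.Agent.Results.MP_16ef92_ag.DescentAll
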