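import Mathlib
import Pool.Agent.Lib.MP_16ef92_ag.ET.Top2

set_option autoImplicit false

namespace Pool.Agent.Results.MP_16ef92_ag.DescentEtale

open Polynomial AlgebraicGeometry Pool.Agent.Lib.MP_16ef92_ag Pool.Agent.Lib.MP_16ef92_ag.ET

/-- Let `F` be finite of odd order, let `A`, `B`, `A - B` have the same positive degree, of the
parity of the degree of `D`, with `N = A B (A - B) D` squarefree, and let `X` be the affine surface
`y^2 = x (x - D A) (x - D B)`, `N ≠ 0`.  If every 2-Selmer pair of weight divisible by 4 comes from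
a 2-torsion point, then `X` is a smooth surface and the eigenvalue 1 of Frobenius on the etale
cohomology group `H^2(X̄, ℚ_2(1))` is semisimple. -/
theorem result (F : Type) [Field F] [Fintype F] (hq : Odd (Fintype.card F)) (A B D : F[X])
    (hsq : Squarefree (A * B * (A - B) * D)) (hA : 0 < A.natDegree)
    (hB : B.natDegree = A.natDegree) (hC : (A - B).natDegree = A.natDegree)
    (hD : Even (A.natDegree + D.natDegree))
    (hSel : ∀ d₁ d₂ : F[X], IsSel A B D d₁ d₂ → 4 ∣ wt D d₁ d₂ → IsTorsImage A B D d₁ d₂) :
    SmoothOfRelativeDimension 2 (Spec.map (CommRingCat.ofHom (algebraMap F (surf A B D)))) ∧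
      SemiOn (frob F (surf A B D)) :=
  semi_of_sel hq hsq hA hB hC hD hSel

end Pool.Agent.Results.MP_16ef92_ag.DescentEtale
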