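import Mathlib
import Pool.Agent.Lib.MP_16ef92_ag.HY.GTop

set_option autoImplicit false

namespace Pool.Agent.Results.MP_16ef92_ag.HyperAll

open Polynomial Filter AlgebraicGeometry Pool.Agent.Lib.MP_16ef92_ag

/-- Let `F` be finite of odd order `q`.  For `i < n` let `a i 0, ..., a i (2 g i)` be polynomials
whose differences all have the same positive degree `r i`, with `g i ≥ 1`,
and let `N = ∏_i C i ∏_(j<k) (a i j - a i k)` be squarefree.  For `D` with `N D` squarefree let
`X_D` be the affine variety `y_i^2 = ∏_j (x_i - D C_i a_ij)` for all `i < n`, `N D ≠ 0`, a fibre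
product of `n` families of hyperelliptic curves of genus `g i`.  Among the `D` of degree `d`, the
proportion of those for which `X_D` is smooth of dimension `n + 1` and, for every prime `l`
different from the characteristic and every `j`, the eigenvalue 1 of Frobenius on the etale
cohomology group `H^(2j)(X̄_D, ℚ_l(j))` is semisimple of multiplicity at most `n.choose (2 j - 1)`
tends to 1 as `d` tends to infinity. -/
theorem result (F : Type) [Field F] [Fintype F] (hq : Odd (Fintype.card F)) (n : ℕ)
    (g r : Fin n → ℕ) (a : ∀ i, Fin (2 * g i + 1) → F[X]) (C : Fin n → F[X])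
    (hg : ∀ i, 0 < g i) (hr : ∀ i, 0 < r i)
    (ha : ∀ i j k, j ≠ k → (a i j - a i k).natDegree = r i) (hsq : Squarefree (HY.bad a C)) :
    Tendsto (fun d : ℕ =>
      (({D : F[X] | D.natDegree = d ∧ Squarefree (HY.bad a C * D) ∧
        SmoothOfRelativeDimension (n + 1) (Spec.map (CommRingCat.ofHom
          (algebraMap F (HY.var (HY.bad a C * D) fun i j => D * C i * a i j)))) ∧
        ∀ (l : ℕ) [Fact l.Prime], (l : F) ≠ 0 → ∀ j : ℕ,
          FT.SemiOn l (Fintype.card F) j (n.choose (2 * j - 1))
            (EL.frob F (HY.var (HY.bad a C * D) fun i j => D * C i * a i j))}.ncard : ℝ)) /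
      ({D : F[X] | D.natDegree = d ∧ Squarefree (HY.bad a C * D)}.ncard : ℝ))
      atTop (nhds 1) :=
  HY.main hq hg hr ha hsq

end Pool.Agent.Results.MP_16ef92_ag.HyperAll
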